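import Pool.Graph.R_seed8.W402.HI.Defs
import Pool.Graph.R_seed8.W816.HI.A1
import Pool.Graph.R_seed8.W816.HI.A4
import Pool.Graph.R_seed8.W261.HI.A3

/-!
# Disconnected spectrum gives a nontrivial hyperinvariant subspace (helper116)

Separation by two test functions with disjoint supports, as in `W816.HI.A4`.
-/

set_option autoImplicit false

open Filter Topology MeasureTheory Metric
open scoped Manifold ContDiff

namespace Pool.Agent.H116.RN

open Pool.Agent.W402.HI Pool.Agent.W816.HI

section alg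

variable {A : Type} [NormedRing A] [NormedAlgebra ℂ A] [CompleteSpace A]

/-- the product of the two integrals vanishes if the supports are disjoint -/
lemma AI_mul_disj (h2 : P_A2) {T : A} {F₁ F₂ : ℂ → ℂ} {c₁ c₂ : ℝ} (d1 : Dat T F₁ c₁)
    (d2 : Dat T F₂ c₂) (hd : Disjoint (tsupport F₁) (tsupport F₂)) :
    (∫ z, Gf T F₁ z) * (∫ z, Gf T F₂ z) = 0 := by
  obtain ⟨B1, hB10, hB1⟩ := Gf_bound d1
  obtain ⟨B2, hB20, hB2⟩ := Gf_bound d2
  have k1 : ∀ z, D F₁ z ≠ 0 → z ∈ tsupport F₁ := fun z hz => by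
    by_contra hc; exact hz (D_zero_off hc)
  have k2 : ∀ z, D F₂ z ≠ 0 → z ∈ tsupport F₂ := fun z hz => by
    by_contra hc; exact hz (D_zero_off hc)
  have off2 : ∀ z, D F₁ z ≠ 0 → z ∉ tsupport F₂ := fun z hz hc =>
    Set.disjoint_left.1 hd (k1 z hz) hc
  have off1 : ∀ z, D F₂ z ≠ 0 → z ∉ tsupport F₁ := fun z hz hc =>
    Set.disjoint_left.1 hd hc (k2 z hz)
  -- a lower bound for the distance
  obtain ⟨δ, hδ, hdist⟩ : ∃ δ : ℝ, 0 < δ ∧ ∀ z ∈ tsupport F₁, ∀ w ∈ tsupport F₂, δ ≤ ‖w - z‖ := by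
    obtain ⟨r, hr, h⟩ := hd.exists_thickenings d1.tst.supp.isCompact (isClosed_tsupport F₂)
    refine ⟨r, hr, fun z hz w hw => ?_⟩
    by_contra hc
    push Not at hc
    refine Set.disjoint_left.1 h (?_ : w ∈ thickening r (tsupport F₁))
      (self_subset_thickening hr _ hw)
    rw [mem_thickening_iff]
    exact ⟨z, hz, by rw [dist_eq_norm]; exact hc⟩
  -- the kernel
  set Ke : ℂ → ℂ → A := fun z w => (D F₁ z / (w - z)) • Gf T F₂ w with hKe
  have hid : ∀ z w, Gf T F₁ z * Gf T F₂ w = (D F₂ w / (w - z)) • Gf T F₁ z - Ke z w := by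
    intro z w
    by_cases hz : D F₁ z = 0
    · simp only [hKe]
      rw [Gf_zero hz, hz]; simp
    · by_cases hw : D F₂ w = 0
      · simp only [hKe]
        rw [Gf_zero hw, hw]; simp
      · have hne : w - z ≠ 0 := by
          intro h
          have h1 := hdist z (k1 z hz) w (k2 w hw)
          rw [h, norm_zero] at h1
          linarith
        simp only [hKe, Gf]
        rw [smul_mul_smul_comm, smul_smul, smul_smul]
        have e := res_id (d1.res z hz) (d2.res w hw)
        have e1 : D F₂ w / (w - z) * D F₁ z = (D F₁ z * D F₂ w) / (w - z) := by ring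
        have e2 : D F₁ z / (w - z) * D F₂ w = (D F₁ z * D F₂ w) / (w - z) := by ring
        rw [e1, e2, ← smul_sub, e, smul_smul, div_mul_cancel₀ _ hne]
  -- integrability of the kernel
  have hKint : Integrable (Function.uncurry Ke) (volume.prod volume) := by
    have hmeas : AEStronglyMeasurable (Function.uncurry Ke) ((volume : Measure ℂ).prod volume) := by
      have m1 : Measurable fun p : ℂ × ℂ => D F₁ p.1 / (p.2 - p.1) :=
        ((meas_D F₁).comp measurable_fst).div (measurable_snd.sub measurable_fst)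
      have m2 : AEStronglyMeasurable (fun p : ℂ × ℂ => Gf T F₂ p.2)
          ((volume : Measure ℂ).prod volume) := (meas_Gf d2.res).comp_snd
      exact m1.aestronglyMeasurable.smul m2
    have hcomp : IsCompact (tsupport F₁ ×ˢ tsupport F₂) :=
      d1.tst.supp.isCompact.prod d2.tst.supp.isCompact
    have hzero : ∀ p : ℂ × ℂ, p ∉ tsupport F₁ ×ˢ tsupport F₂ → Function.uncurry Ke p = 0 := by
      intro p hp
      rw [Set.mem_prod, not_and_or] at hp
      rcases hp with hp | hp
      · simp only [hKe, Function.uncurry]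
        rw [D_zero_off hp]; simp
      · simp only [hKe, Function.uncurry]
        rw [Gf_zero (D_zero_off hp), smul_zero]
    have hsupp : Function.support (Function.uncurry Ke) ⊆ tsupport F₁ ×ˢ tsupport F₂ := by
      intro p hp
      by_contra hc
      exact hp (hzero p hc)
    refine (integrableOn_iff_integrable_of_support_subset hsupp).1 ?_
    refine Measure.integrableOn_of_bounded (M := B1 / δ * B2) hcomp.measure_lt_top.ne hmeas
      (ae_of_all _ (fun p => ?_))
    obtain ⟨z, w⟩ := p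
    simp only [hKe, Function.uncurry]
    by_cases hz : D F₁ z = 0
    · rw [hz, zero_div, zero_smul, norm_zero]; positivity
    · by_cases hw : D F₂ w = 0
      · rw [Gf_zero hw, smul_zero, norm_zero]; positivity
      · refine (norm_smul_le _ _).trans (mul_le_mul ?_ (hB2 w).2 (norm_nonneg _) (by positivity))
        have h4 := hdist z (k1 z hz) w (k2 w hw)
        rw [norm_div]
        exact div_le_div₀ hB10 (hB1 z).1 hδ h4
  -- inner integrals
  have hin : ∀ z, Gf T F₁ z * (∫ w, Gf T F₂ w) = -∫ w, Ke z w := by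
    intro z
    by_cases hz : D F₁ z = 0
    · have : ∀ w, Ke z w = 0 := fun w => by simp only [hKe]; rw [hz]; simp
      simp_rw [this]
      rw [Gf_zero hz]; simp
    · have ho := off2 z hz
      obtain ⟨t1, t2⟩ := tst_div d2.tst ho
      have i1 : Integrable (fun w => D F₂ w / (w - z)) := by
        have := int_D t1
        refine this.congr (ae_of_all _ (fun w => t2 w))
      have i2 : Integrable (fun w => (D F₂ w / (w - z)) • Gf T F₁ z) := i1.smul_const _
      have i3 : Integrable (fun w => Gf T F₁ z * Gf T F₂ w) :=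
        (int_Gf d2).const_mul' (Gf T F₁ z)
      have i4 : Integrable (fun w => Ke z w) := by
        have := i2.sub i3
        refine this.congr (ae_of_all _ (fun w => ?_))
        simp only [Pi.sub_apply]
        rw [hid]
        abel
      rw [← integral_const_mul_of_integrable (int_Gf d2)]
      simp_rw [hid]
      rw [integral_sub i2 i4, integral_smul_const, h2 F₂ d2.tst z ho, zero_smul, zero_sub]
  have hout : ∀ w, ∫ z, Ke z w = 0 := by
    intro w
    simp only [hKe]
    rw [integral_smul_const]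
    by_cases hw : D F₂ w = 0
    · rw [Gf_zero hw, smul_zero]
    · have ho := off1 w hw
      have h5 := h2 F₁ d1.tst w ho
      have h6 : ∫ z, D F₁ z / (w - z) = -∫ z, D F₁ z / (z - w) := by
        rw [← integral_neg]
        congr 1
        funext z
        rw [← neg_sub z w, div_neg]
      rw [h6, h5, neg_zero, zero_smul]
  rw [← integral_mul_const_of_integrable (int_Gf d1)]
  simp_rw [hin]
  rw [integral_neg, integral_integral_swap hKint]
  simp_rw [hout]
  simp

/-- A test function which is `1` near `s`, vanishes outside the closed set `t` and whose derivative is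
supported in the resolvent set. -/
lemma exists_dat (T : A) (s t : Set ℂ) (hs : IsCompact s) (ht : IsCompact t)
    (hst : s ⊆ interior t) (hsp : spectrum ℂ T ∩ t ⊆ s) :
    ∃ (F : ℂ → ℂ) (c : ℝ), Dat T F c ∧ tsupport F ⊆ t ∧
      ∀ μ ∈ s, F μ ≠ 0 ∧ ∀ᶠ z in 𝓝 μ, D F z = 0 := by
  obtain ⟨f, hf1, hf0, _⟩ := exists_contMDiffMap_one_nhds_of_subset_interior (n := (⊤ : ℕ∞))
    (I := 𝓘(ℝ, ℂ)) (M := ℂ) hs.isClosed hst
  have hfs : ContDiff ℝ ∞ (f : ℂ → ℝ) := f.contMDiff.contDiff
  set F : ℂ → ℂ := fun z => ((f z : ℝ) : ℂ) with hF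
  have hFs : ContDiff ℝ ∞ F := Complex.ofRealCLM.contDiff.comp hfs
  have hsup : tsupport F ⊆ t := by
    apply closure_minimal _ ht.isClosed
    intro z hz
    by_contra hc
    apply hz
    simp only [hF]
    rw [hf0 z hc]
    simp
  have hcomp : HasCompactSupport F := ht.of_isClosed_subset (isClosed_tsupport F) hsup
  have hdiff : Differentiable ℝ F := hFs.differentiable (by simp)
  have hcd : Continuous (fderiv ℝ F) := hFs.continuous_fderiv (by simp)
  obtain ⟨C, hC⟩ := (hcomp.fderiv ℝ).exists_bound_of_continuous hcd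
  have htst : Tst F := ⟨hdiff, ⟨C, hC⟩, hcomp⟩
  -- derivative near s
  obtain ⟨U, hU, hsU, hU1⟩ : ∃ U : Set ℂ, IsOpen U ∧ s ⊆ U ∧ ∀ z ∈ U, f z = 1 := by
    obtain ⟨U, hU, hsU, h⟩ := mem_nhdsSet_iff_exists.1 hf1
    exact ⟨U, hU, hsU, h⟩
  have hDU : ∀ z ∈ U, D F z = 0 := by
    intro z hz
    have e1 : F =ᶠ[𝓝 z] fun _ => (1 : ℂ) := by
      filter_upwards [hU.mem_nhds hz] with w hw
      simp only [hF]
      rw [hU1 w hw]
      simp
    unfold D
    rw [e1.fderiv_eq]
    simp
  have hDs : ∀ z, D F z ≠ 0 → z ∈ t \ U := by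
    intro z hz
    refine ⟨?_, fun h => hz (hDU z h)⟩
    by_contra hc
    exact hz (D_zero_off (fun h => hc (hsup h)))
  set K : Set ℂ := t \ U with hK
  have hKc : IsCompact K := ht.diff hU
  have hKr : K ⊆ resolventSet ℂ T := by
    intro z hz
    by_contra hc
    exact hz.2 (hsU (hsp ⟨hc, hz.1⟩))
  have hres : ContinuousOn (fun z => ‖resolvent T z‖) K := ((cont_res T).mono hKr).norm
  obtain ⟨B, hB⟩ := hKc.exists_bound_of_continuousOn hres
  obtain ⟨R, hR⟩ := hKc.isBounded.exists_norm_le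
  refine ⟨F, R + 1, ⟨htst, fun z hz => hKr (hDs z hz), ⟨2 * |C| * (1 + |B|), fun z => ?_⟩⟩, hsup,
    fun μ hμ => ⟨?_, ?_⟩⟩
  · by_cases hz : D F z = 0
    · rw [hz, norm_zero, zero_mul]; positivity
    · have hzK := hDs z hz
      have e1 : ‖D F z‖ ≤ 2 * |C| := by
        unfold D
        have a1 : ‖fderiv ℝ F z 1‖ ≤ |C| := by
          refine ((fderiv ℝ F z).le_opNorm 1).trans ?_
          rw [norm_one, mul_one]
          exact (hC z).trans (le_abs_self C)
        have a2 : ‖Complex.I * fderiv ℝ F z Complex.I‖ ≤ |C| := by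
          rw [norm_mul, Complex.norm_I, one_mul]
          refine ((fderiv ℝ F z).le_opNorm Complex.I).trans ?_
          rw [Complex.norm_I, mul_one]
          exact (hC z).trans (le_abs_self C)
        exact (norm_add_le _ _).trans (by linarith)
      have e2 : ‖resolvent T z‖ ≤ |B| := by
        have := hB z hzK
        rw [Real.norm_eq_abs, abs_norm] at this
        exact this.trans (le_abs_self B)
      have e3 : 1 ≤ |z.re - (R + 1)| := by
        have a1 := hR z hzK
        have a2 := Complex.abs_re_le_norm z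
        have a3 := le_abs_self z.re
        rw [abs_sub_comm]
        refine le_trans ?_ (le_abs_self _)
        linarith
      calc ‖D F z‖ * (1 + ‖resolvent T z‖) ≤ 2 * |C| * (1 + |B|) :=
            mul_le_mul e1 (by linarith) (by positivity) (by positivity)
        _ = 2 * |C| * (1 + |B|) * 1 := (mul_one _).symm
        _ ≤ 2 * |C| * (1 + |B|) * |z.re - (R + 1)| :=
            mul_le_mul_of_nonneg_left e3 (by positivity)
  · simp only [hF]
    rw [hU1 μ (hsU hμ)]
    simp
  · filter_upwards [hU.mem_nhds (hsU hμ)] with z hz using hDU z hz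

end alg

/-- **Disconnected spectrum gives a nontrivial hyperinvariant subspace.** -/
theorem riesz_core (X : Type) [NormedAddCommGroup X] [NormedSpace ℂ X] [CompleteSpace X]
    (T : X →L[ℂ] X) (hT : ¬ IsPreconnected (spectrum ℂ T)) : HasHyp T := by
  have h2 : P_A2 := mainA2
  have h3 : P_A3 := Pool.Agent.W261.HI.A3.main mainA1
  have hcl : IsClosed (spectrum ℂ T) := spectrum.isClosed T
  have hco : IsCompact (spectrum ℂ T) := spectrum.isCompact T
  rw [isPreconnected_iff_subset_of_disjoint_closed] at hT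
  push Not at hT
  obtain ⟨u, v, hu, hv, huv, hdis, hnu, hnv⟩ := hT
  set s₁ : Set ℂ := spectrum ℂ T ∩ u with hs1
  set s₂ : Set ℂ := spectrum ℂ T ∩ v with hs2
  have c1 : IsCompact s₁ := hco.inter_right hu
  have c2 : IsCompact s₂ := hco.inter_right hv
  have hd : Disjoint s₁ s₂ := by
    rw [Set.disjoint_left]
    intro z hz hz'
    have : z ∈ spectrum ℂ T ∩ (u ∩ v) := ⟨hz.1, hz.2, hz'.2⟩
    rw [hdis] at this
    exact this
  have n1 : s₁.Nonempty := by
    obtain ⟨z, hz, hzv⟩ := Set.not_subset.1 hnv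
    exact ⟨z, hz, (huv hz).resolve_right hzv⟩
  have n2 : s₂.Nonempty := by
    obtain ⟨z, hz, hzu⟩ := Set.not_subset.1 hnu
    exact ⟨z, hz, (huv hz).resolve_left hzu⟩
  obtain ⟨δ, hδ, hth⟩ := hd.exists_cthickenings c1 c2.isClosed
  have i1 : s₁ ⊆ interior (cthickening δ s₁) :=
    (self_subset_thickening hδ s₁).trans (interior_maximal (thickening_subset_cthickening δ s₁)
      isOpen_thickening)
  have i2 : s₂ ⊆ interior (cthickening δ s₂) :=
    (self_subset_thickening hδ s₂).trans (interior_maximal (thickening_subset_cthickening δ s₂)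
      isOpen_thickening)
  have t1 : spectrum ℂ T ∩ cthickening δ s₁ ⊆ s₁ := by
    rintro z ⟨hz, hz'⟩
    rcases huv hz with h | h
    · exact ⟨hz, h⟩
    · exact absurd (self_subset_cthickening s₂ ⟨hz, h⟩) (Set.disjoint_left.1 hth hz')
  have t2 : spectrum ℂ T ∩ cthickening δ s₂ ⊆ s₂ := by
    rintro z ⟨hz, hz'⟩
    rcases huv hz with h | h
    · exact absurd hz' (Set.disjoint_left.1 hth (self_subset_cthickening s₁ ⟨hz, h⟩))
    · exact ⟨hz, h⟩
  obtain ⟨F₁, a₁, d1, u1, m1⟩ := exists_dat T s₁ (cthickening δ s₁) c1 c1.cthickening i1 t1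
  obtain ⟨F₂, a₂, d2, u2, m2⟩ := exists_dat T s₂ (cthickening δ s₂) c2 c2.cthickening i2 t2
  have k1 : (∫ z, Gf T F₁ z) ≠ 0 := by
    obtain ⟨μ, hμ⟩ := n1
    exact AI_ne h3 d1 ⟨μ, hμ.1, m1 μ hμ⟩
  have k2 : (∫ z, Gf T F₂ z) ≠ 0 := by
    obtain ⟨μ, hμ⟩ := n2
    exact AI_ne h3 d2 ⟨μ, hμ.1, m2 μ hμ⟩
  have hm := AI_mul_disj h2 d1 d2 (hth.mono u1 u2)
  set A1 : X →L[ℂ] X := ∫ z, Gf T F₁ z with hA1
  set A2 : X →L[ℂ] X := ∫ z, Gf T F₂ z with hA2
  refine ⟨LinearMap.ker (A1 : X →ₗ[ℂ] X), A1.isClosed_ker, ?_, ?_, ?_⟩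
  · intro hbot
    obtain ⟨x, hx⟩ : ∃ x, A2 x ≠ 0 := by
      by_contra hc
      push Not at hc
      exact k2 (ContinuousLinearMap.ext hc)
    have : A2 x ∈ LinearMap.ker (A1 : X →ₗ[ℂ] X) := by
      rw [LinearMap.mem_ker]
      have := congrArg (fun B : X →L[ℂ] X => B x) hm
      exact this
    rw [hbot, Submodule.mem_bot] at this
    exact hx this
  · intro htop
    apply k1
    ext x
    have : x ∈ LinearMap.ker (A1 : X →ₗ[ℂ] X) := by rw [htop]; trivial
    rw [LinearMap.mem_ker] at this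
    exact this
  · intro Q hQ x hx
    have h1 := AI_comm hQ d1
    rw [LinearMap.mem_ker] at hx ⊢
    have h4 := congrArg (fun B : X →L[ℂ] X => B x) h1
    change Q (A1 x) = A1 (Q x) at h4
    have h5 : A1 x = 0 := hx
    change A1 (Q x) = 0
    rw [← h4, h5, map_zero]

end Pool.Agent.H116.RN
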