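import Pool.Agent.H933.RN.Stm
import Pool.Agent.H116.RN.RieszCore

/-!
# P_riesz (helper116)
-/

set_option autoImplicit false

namespace Pool.Agent.H116.RN

open Pool.Agent.H933.RN

theorem p_riesz : P_riesz := fun X _ _ _ T hT => riesz_core X T hT

end Pool.Agent.H116.RN
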